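import Pool.Agent.Helper70.EK.WfCont
set_option autoImplicit false
open Complex MeasureTheory Metric Set
open scoped Real ComplexConjugate

/-! Project EK, module E3: from the disc to the strip. The inputs E1c, E3a1, E3a2, E3b are
hypotheses of the last theorem. -/

namespace Pool.Agent.Helper70.EK

open Pool.Agent.Helper39.Area Pool.Agent.Helper52.EK

/-- unimodular factor between the frames -/
noncomputable def ph (Z : ℂ) : ℂ := ((‖I + Z‖ / ‖I - Z‖ : ℝ) : ℂ) * ((I - Z) / (I - conj Z))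

theorem norm_sub_conj (Z : ℂ) : ‖I - conj Z‖ = ‖I + Z‖ := by
  have h : I - conj Z = -(conj (I + Z)) := by
    rw [map_add, Complex.conj_I]; ring
  rw [h, norm_neg, RCLike.norm_conj]

theorem low (Z : ℂ) (hZ : ‖Z‖ ≤ 1 / 2) : 1 / 2 ≤ ‖I + Z‖ ∧ 1 / 2 ≤ ‖I - Z‖ ∧ ‖I + Z‖ ≤ 3 / 2 ∧
    ‖I - Z‖ ≤ 3 / 2 := by
  have h1 : ‖I‖ = 1 := Complex.norm_I
  have h2 := norm_add_le I Z
  have h3 := norm_sub_le I Z
  have h4 : ‖I‖ ≤ ‖I + Z‖ + ‖Z‖ := by
    have := norm_sub_le (I + Z) Z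
    simpa using this
  have h5 : ‖I‖ ≤ ‖I - Z‖ + ‖Z‖ := by
    have := norm_add_le (I - Z) Z
    simpa using this
  refine ⟨?_, ?_, ?_, ?_⟩ <;> linarith

theorem norm_ph {Z : ℂ} (hZ : ‖Z‖ ≤ 1 / 2) : ‖ph Z‖ = 1 := by
  obtain ⟨h1, h2, _, _⟩ := low Z hZ
  unfold ph
  rw [norm_mul, norm_div, norm_sub_conj, Complex.norm_real, norm_div, norm_norm, norm_norm]
  have h3 : ‖I + Z‖ ≠ 0 := by linarith
  have h4 : ‖I - Z‖ ≠ 0 := by linarith
  field_simp

theorem ph_sub_one {Z : ℂ} (hZ : ‖Z‖ ≤ 1 / 2) : ‖ph Z - 1‖ ≤ 16 * ‖Z‖ := by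
  obtain ⟨h1, h2, h3, h4⟩ := low Z hZ
  set r : ℝ := ‖I + Z‖ / ‖I - Z‖ with hr
  set q : ℂ := (I - Z) / (I - conj Z) with hq
  have e1 : ph Z - 1 = (r : ℂ) * (q - 1) + ((r - 1 : ℝ) : ℂ) := by
    have e0' : ph Z = (r : ℂ) * q := rfl
    rw [e0']
    push_cast
    ring
  have e2 : |r| ≤ 3 := by
    rw [abs_of_nonneg (by positivity), hr, div_le_iff₀ (by linarith)]
    linarith
  have e3 : |r - 1| ≤ 4 * ‖Z‖ := by
    have h5 : r - 1 = (‖I + Z‖ - ‖I - Z‖) / ‖I - Z‖ := by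
      rw [hr]
      have : ‖I - Z‖ ≠ 0 := by linarith
      field_simp
    have h6 : |‖I + Z‖ - ‖I - Z‖| ≤ 2 * ‖Z‖ := by
      have h7 := abs_norm_sub_norm_le (I + Z) (I - Z)
      have h8 : I + Z - (I - Z) = 2 * Z := by ring
      rw [h8, norm_mul] at h7
      simpa using h7
    rw [h5, abs_div, abs_of_nonneg (norm_nonneg (I - Z)), div_le_iff₀ (by linarith)]
    nlinarith [norm_nonneg Z]
  have e4 : ‖q - 1‖ ≤ 4 * ‖Z‖ := by
    have h5 : ‖I - conj Z‖ = ‖I + Z‖ := norm_sub_conj Z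
    have h6 : I - conj Z ≠ 0 := by
      intro h
      rw [h, norm_zero] at h5
      linarith
    have h7 : q - 1 = (conj Z - Z) / (I - conj Z) := by
      rw [hq]
      field_simp
      ring
    rw [h7, norm_div, h5, div_le_iff₀ (by linarith)]
    have h8 : ‖conj Z - Z‖ ≤ 2 * ‖Z‖ := by
      have := norm_sub_le (conj Z) Z
      rw [RCLike.norm_conj] at this
      linarith
    nlinarith [norm_nonneg Z]
  rw [e1]
  have h9 := norm_add_le ((r : ℂ) * (q - 1)) ((r - 1 : ℝ) : ℂ)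
  rw [norm_mul, Complex.norm_real, Complex.norm_real, Real.norm_eq_abs, Real.norm_eq_abs] at h9
  have h10 : |r| * ‖q - 1‖ ≤ 3 * (4 * ‖Z‖) :=
    mul_le_mul e2 e4 (norm_nonneg _) (by norm_num)
  linarith

theorem err_le {Z : ℂ} (hZ : ‖Z‖ ≤ 1 / 2) :
    ‖2 * I * Z.im / (Z + I) + 4 * I * Z.im / (Z - I)‖ ≤ 12 * ‖Z‖ := by
  obtain ⟨h1, h2, _, _⟩ := low Z hZ
  have h3 : ‖(Z.im : ℂ)‖ ≤ ‖Z‖ := by
    rw [Complex.norm_real, Real.norm_eq_abs]
    exact Complex.abs_im_le_norm Z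
  have h4 : ‖Z + I‖ = ‖I + Z‖ := by rw [add_comm]
  have h5 : ‖Z - I‖ = ‖I - Z‖ := norm_sub_rev Z I
  have a1 : ‖2 * I * (Z.im : ℂ) / (Z + I)‖ ≤ 4 * ‖Z‖ := by
    rw [norm_div, norm_mul, norm_mul, h4, Complex.norm_I, div_le_iff₀ (by linarith)]
    have : ‖(2:ℂ)‖ = 2 := by simp
    rw [this]
    nlinarith [norm_nonneg Z]
  have a2 : ‖4 * I * (Z.im : ℂ) / (Z - I)‖ ≤ 8 * ‖Z‖ := by
    rw [norm_div, norm_mul, norm_mul, h5, Complex.norm_I, div_le_iff₀ (by linarith)]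
    have : ‖(4:ℂ)‖ = 4 := by simp
    rw [this]
    nlinarith [norm_nonneg Z]
  have h6 := norm_add_le (2 * I * (Z.im : ℂ) / (Z + I)) (4 * I * (Z.im : ℂ) / (Z - I))
  linarith

theorem norm_e0 (η : ℝ) : ‖e0 (Real.sin η) (Real.cos η)‖ = 1 := by
  unfold e0
  rw [norm_neg, norm_pow]
  have h : ‖((Real.cos η : ℝ) : ℂ) - (Real.sin η : ℝ) * I‖ ^ 2 = 1 := by
    rw [← Complex.normSq_eq_norm_sq, Complex.normSq_apply]
    have h1 : (((Real.cos η : ℝ) : ℂ) - (Real.sin η : ℝ) * I).re = Real.cos η := by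
      simp only [Complex.sub_re, Complex.ofReal_re, Complex.mul_re, Complex.I_re, Complex.I_im,
        Complex.ofReal_im]
      ring
    have h2 : (((Real.cos η : ℝ) : ℂ) - (Real.sin η : ℝ) * I).im = -Real.sin η := by
      simp only [Complex.sub_im, Complex.ofReal_re, Complex.mul_im, Complex.I_re, Complex.I_im,
        Complex.ofReal_im]
      ring
    rw [h1, h2]
    nlinarith [Real.sin_sq_add_cos_sq η]
  exact h

theorem norm_E (ξ η : ℝ) : ‖Complex.exp (pt ξ η)‖ = Real.exp ξ := by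
  rw [Complex.norm_exp]
  congr 1
  simp [pt]

theorem im_E (ξ η : ℝ) : (Complex.exp (pt ξ η)).im = Real.exp ξ * Real.sin η := by
  rw [Complex.exp_im]
  simp [pt]

/-- the abstract comparison -/
theorem core {G : ℂ → ℂ} {L : ℝ} (hG : GLip G L) {p e m err : ℂ} {δ : ℝ} (hp : ‖p‖ = 1)
    (he : ‖e‖ = 1) (h1 : ‖p - 1‖ ≤ 16 * δ) (h2 : ‖err‖ ≤ 12 * δ) :
    ‖p * e - G (p * (m + err))‖ ^ 2 ≤ ‖G m - e‖ ^ 2 + 4 * (16 + 28 * L) * δ := by
  have hL := GLip.nonneg hG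
  have a1 : ‖p * e - e‖ ≤ 16 * δ := by
    have : p * e - e = (p - 1) * e := by ring
    rw [this, norm_mul, he, mul_one]
    exact h1
  have a2 : ‖G m - G (m + err)‖ ≤ L * (12 * δ) := by
    have h3 := hG.lip m (m + err)
    have h4 : ‖m - (m + err)‖ = ‖err‖ := by
      have : m - (m + err) = -err := by ring
      rw [this, norm_neg]
    rw [h4] at h3
    exact h3.trans (mul_le_mul_of_nonneg_left h2 hL)
  have a3 : ‖G (p * (m + err)) - G (m + err)‖ ≤ L * (16 * δ) :=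
    (hG.rot p (m + err) hp).trans (mul_le_mul_of_nonneg_left h1 hL)
  have a4 : ‖p * e - G (p * (m + err))‖ ≤ ‖G m - e‖ + (16 + 28 * L) * δ := by
    have e1 : p * e - G (p * (m + err)) = (p * e - e) + (-(G m - e)) + (G m - G (m + err))
        + (-(G (p * (m + err)) - G (m + err))) := by ring
    rw [e1]
    have b1 := norm_add_le ((p * e - e) + (-(G m - e)) + (G m - G (m + err)))
      (-(G (p * (m + err)) - G (m + err)))
    have b2 := norm_add_le ((p * e - e) + (-(G m - e))) (G m - G (m + err))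
    have b3 := norm_add_le (p * e - e) (-(G m - e))
    rw [norm_neg] at b1 b3
    nlinarith
  have a5 : ‖p * e - G (p * (m + err))‖ ≤ 2 := by
    have b1 := norm_sub_le (p * e) (G (p * (m + err)))
    rw [norm_mul, hp, he] at b1
    have b2 := hG.le_one (p * (m + err))
    linarith
  have a6 : ‖G m - e‖ ≤ 2 := by
    have b1 := norm_sub_le (G m) e
    rw [he] at b1
    have b2 := hG.le_one m
    linarith
  have hδ : 0 ≤ (16 + 28 * L) * δ := by
    have : 0 ≤ δ := by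
      have := norm_nonneg (p - 1)
      linarith
    positivity
  have c1 := norm_nonneg (p * e - G (p * (m + err)))
  have c2 := norm_nonneg (G m - e)
  nlinarith [mul_nonneg hδ c1, mul_nonneg hδ c2]

/-! ### points of the strip -/

theorem zf_norm {ξ η : ℝ} (h0 : 0 < η) (h1 : η < π) (hξ : ξ < 0) :
    0 < ‖zf (pt ξ η)‖ ∧ ‖zf (pt ξ η)‖ < 1 := by
  set E := Complex.exp (pt ξ η) with hE
  have h2 : ‖E‖ < 1 := by
    rw [hE, norm_E]
    rw [← Real.exp_zero]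
    exact Real.exp_lt_exp.mpr hξ
  have h3 : 0 < E.im := by
    rw [hE, im_E]
    exact mul_pos (Real.exp_pos _) (Real.sin_pos_of_pos_of_lt_pi h0 h1)
  have h4 : I - E ≠ 0 := by
    intro h
    have : E = I := (sub_eq_zero.mp h).symm
    rw [this, Complex.norm_I] at h2
    exact lt_irrefl _ h2
  have h5 : I + E ≠ 0 := by
    intro h
    have : E = -I := by linear_combination h
    rw [this, norm_neg, Complex.norm_I] at h2
    exact lt_irrefl _ h2
  unfold zf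
  rw [← hE, norm_div]
  refine ⟨div_pos (norm_pos_iff.mpr h4) (norm_pos_iff.mpr h5), ?_⟩
  rw [div_lt_one (norm_pos_iff.mpr h5)]
  have h6 : ‖I - E‖ ^ 2 < ‖I + E‖ ^ 2 := by
    rw [← Complex.normSq_eq_norm_sq, ← Complex.normSq_eq_norm_sq, Complex.normSq_apply,
      Complex.normSq_apply]
    simp only [Complex.sub_re, Complex.I_re, Complex.sub_im, Complex.I_im, Complex.add_re,
      Complex.add_im]
    nlinarith
  exact lt_of_pow_lt_pow_left₀ 2 (norm_nonneg _) h6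

theorem wf_term {w g : ℂ} {z : ℂ} (hz : 0 < ‖z‖) :
    ‖w - conj (z / (‖z‖ : ℂ)) * g‖ = ‖(z / (‖z‖ : ℂ)) * w - g‖ := by
  set u : ℂ := z / (‖z‖ : ℂ) with hu
  have h1 : ‖u‖ = 1 := by
    rw [hu, norm_div, Complex.norm_real, norm_norm]
    exact div_self hz.ne'
  have h2 : u * conj u = 1 := by
    rw [Complex.mul_conj, Complex.normSq_eq_norm_sq, h1]
    simp
  have h3 : u * w - g = u * (w - conj u * g) := by
    linear_combination g * h2
  rw [h3, norm_mul, h1, one_mul]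

end Pool.Agent.Helper70.EK
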