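import Pool.Agent.Helper52.EK.Defs
set_option autoImplicit false
open Complex MeasureTheory Metric Set
open scoped Real ComplexConjugate

/-! Project EK, module E3: continuity of the field `wf G β`. -/

namespace Pool.Agent.Helper70.EK

open Pool.Agent.Helper39.Area Pool.Agent.Helper52.EK

theorem GLip.nonneg {G : ℂ → ℂ} {L : ℝ} (hG : GLip G L) : 0 ≤ L := by
  have h := hG.lip 1 0
  have h2 : L * ‖(1:ℂ) - 0‖ = L := by simp
  rw [h2] at h
  exact (norm_nonneg _).trans h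

theorem GLip.continuous {G : ℂ → ℂ} {L : ℝ} (hG : GLip G L) : Continuous G := by
  have h : LipschitzWith (Real.toNNReal L) G := by
    apply LipschitzWith.of_dist_le_mul
    intro x y
    rw [dist_eq_norm, dist_eq_norm, Real.coe_toNNReal _ (GLip.nonneg hG)]
    exact hG.lip x y
  exact h.continuous

theorem N_diff {β : ℂ → ℂ} (h : Ext β) : DifferentiableOn ℂ (N β) (ball 0 1) := by
  have h1 : DifferentiableOn ℂ (deriv β) (ball 0 1) := h.diff.deriv isOpen_ball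
  unfold N
  fun_prop

theorem mrad_cont {β : ℂ → ℂ} (h : Ext β) :
    ContinuousOn (mrad β) {z | 0 < ‖z‖ ∧ ‖z‖ < 1} := by
  have hs : {z : ℂ | 0 < ‖z‖ ∧ ‖z‖ < 1} ⊆ ball 0 1 := by
    rintro z ⟨_, hz⟩
    rw [mem_ball, dist_zero_right]
    exact hz
  have h1 : ContinuousOn (N β) {z : ℂ | 0 < ‖z‖ ∧ ‖z‖ < 1} := (N_diff h).continuousOn.mono hs
  have h2 : ContinuousOn (deriv (N β)) {z : ℂ | 0 < ‖z‖ ∧ ‖z‖ < 1} :=
    ((N_diff h).deriv isOpen_ball).continuousOn.mono hs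
  have h3 : ∀ z ∈ {z : ℂ | 0 < ‖z‖ ∧ ‖z‖ < 1}, N β z ≠ 0 := fun z hz => h.ne z (hs hz)
  have h4 : ContinuousOn (fun z : ℂ => z / (‖z‖ : ℂ)) {z : ℂ | 0 < ‖z‖ ∧ ‖z‖ < 1} := by
    apply ContinuousOn.div continuousOn_id
    · exact (Complex.continuous_ofReal.comp continuous_norm).continuousOn
    · rintro z ⟨hz, _⟩
      exact Complex.ofReal_ne_zero.mpr hz.ne'
  have h5 : ContinuousOn (fun z : ℂ => deriv (N β) z / N β z) {z : ℂ | 0 < ‖z‖ ∧ ‖z‖ < 1} :=
    h2.div h1 h3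
  have h6 : ContinuousOn (fun z : ℂ => -conj z - (1 - (‖z‖ : ℂ) ^ 2) * (deriv (N β) z / N β z))
      {z : ℂ | 0 < ‖z‖ ∧ ‖z‖ < 1} := by
    apply ContinuousOn.sub
    · exact (Complex.continuous_conj.neg).continuousOn
    · apply ContinuousOn.mul _ h5
      exact (continuous_const.sub
        ((Complex.continuous_ofReal.comp continuous_norm).pow 2)).continuousOn
  exact h4.mul h6

/-- E3c -/
theorem wf_cont {G : ℂ → ℂ} {L : ℝ} (hG : GLip G L) {β : ℂ → ℂ} (h : Ext β) :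
    ContinuousOn (wf G β) {z | 0 < ‖z‖ ∧ ‖z‖ < 1} := by
  have h4 : ContinuousOn (fun z : ℂ => conj (z / (‖z‖ : ℂ))) {z : ℂ | 0 < ‖z‖ ∧ ‖z‖ < 1} := by
    apply Complex.continuous_conj.comp_continuousOn
    apply ContinuousOn.div continuousOn_id
    · exact (Complex.continuous_ofReal.comp continuous_norm).continuousOn
    · rintro z ⟨hz, _⟩
      exact Complex.ofReal_ne_zero.mpr hz.ne'
  exact h4.mul ((GLip.continuous hG).comp_continuousOn (mrad_cont h))

theorem wf_le_one {G : ℂ → ℂ} {L : ℝ} (hG : GLip G L) (β : ℂ → ℂ) (z : ℂ) :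
    ‖wf G β z‖ ≤ 1 := by
  unfold wf
  rw [norm_mul, RCLike.norm_conj, norm_div, Complex.norm_real, norm_norm]
  have h1 : ‖z‖ / ‖z‖ ≤ 1 := div_self_le_one _
  have h2 := hG.le_one (mrad β z)
  have h3 : 0 ≤ ‖z‖ / ‖z‖ := by positivity
  nlinarith [norm_nonneg (G (mrad β z))]

end Pool.Agent.Helper70.EK
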