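import Pool.Agent.Helper70.EK.E3Int
import Pool.Agent.Helper97.EK.E3a
import Pool.Agent.Helper67.EK.E1c
set_option autoImplicit false
open Complex MeasureTheory Metric Set
open scoped Real ComplexConjugate

/-! Project EK, module E3: only the change of variables E3b remains a hypothesis. -/

namespace Pool.Agent.Helper70.EK

open Pool.Agent.Helper39.Area Pool.Agent.Helper52.EK

theorem E3_of_b
    (E3b : ∀ A : ℝ, 1 ≤ A → ∃ C : ℝ, ∀ (w : ℂ → ℂ) (a : ℝ),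
      ContinuousOn w {z | 0 < ‖z‖ ∧ ‖z‖ < 1} → (∀ z, ‖w z‖ ≤ 1) → Real.exp (-1) < a → a < 1 →
      Real.log (tau a) + A ≤ -A →
      Kf w 1 (-1) (Real.log a) ≤ π⁻¹ * II (Real.log (tau a) + A) (-A)
        (fun ξ η => ‖ee 1 (zf (pt ξ η)) - w (zf (pt ξ η))‖ ^ 2) + C)
    {G : ℂ → ℂ} {L : ℝ} (hG : GLip G L) : ∀ A : ℝ, 1 ≤ A → ∃ C : ℝ,
    ∀ (β : ℂ → ℂ) (R a : ℝ), ExtR β R → Real.exp (-1) < a → a < 1 →
    Real.log (tau a) + A ≤ -A →
    Kf (wf G β) 1 (-1) (Real.log a) ≤ π⁻¹ * II (Real.log (tau a) + A) (-A)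
      (fun ξ η => TG G (Xf β a (pt ξ η)) (deriv (Xf β a) (pt ξ η)) (Real.sin η) (Real.cos η))
      + C := by
  apply E3_of
  · intro β R h a ha ha1 x₁ x₂ h1 h2
    exact Pool.Agent.Helper67.EK.E1c h ha ha1 h1 h2
  · intro ξ η h0 h1 hξ
    exact Pool.Agent.Helper97.EK.E3a1 h0 h1 hξ
  · intro β h a ha ha1 ξ η h0 h1 hξ hξ1
    exact Pool.Agent.Helper97.EK.E3a2 h ha ha1 h0 h1 hξ hξ1
  · exact E3b
  · exact hG

end Pool.Agent.Helper70.EK
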