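import Pool.Agent.Helper70.EK.E3Pre
import Pool.Agent.Helper84.EK.E3bFinal
set_option autoImplicit false
open Complex MeasureTheory Metric Set
open scoped Real ComplexConjugate

/-! Project EK, module E3: K against the strip functional. -/

namespace Pool.Agent.Helper70.EK

open Pool.Agent.Helper39.Area Pool.Agent.Helper52.EK

/-- E3: K against the strip functional -/
theorem E3 {G : ℂ → ℂ} {L : ℝ} (hG : GLip G L) : ∀ A : ℝ, 1 ≤ A → ∃ C : ℝ,
    ∀ (β : ℂ → ℂ) (R a : ℝ), ExtR β R → Real.exp (-1) < a → a < 1 →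
    Real.log (tau a) + A ≤ -A →
    Kf (wf G β) 1 (-1) (Real.log a) ≤ π⁻¹ * II (Real.log (tau a) + A) (-A)
      (fun ξ η => TG G (Xf β a (pt ξ η)) (deriv (Xf β a) (pt ξ η)) (Real.sin η) (Real.cos η))
      + C :=
  E3_of_b Pool.Agent.Helper84.EK.E3b hG

end Pool.Agent.Helper70.EK
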