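import Pool.Agent.Helper70.EK.E3Core
set_option autoImplicit false
open Complex MeasureTheory Metric Set
open scoped Real ComplexConjugate

/-! Project EK, module E3: the integrals over the rectangle. -/

namespace Pool.Agent.Helper70.EK

open Pool.Agent.Helper39.Area Pool.Agent.Helper52.EK

theorem integrableOn_strip {F : ℝ × ℝ → ℝ} {x₁ x₂ M : ℝ}
    (hc : ContinuousOn F (Ioc x₁ x₂ ×ˢ Ioo 0 π)) (hb : ∀ p ∈ Ioc x₁ x₂ ×ˢ Ioo 0 π, ‖F p‖ ≤ M) :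
    IntegrableOn F (Ioc x₁ x₂ ×ˢ Ioo 0 π) := by
  have hm : MeasurableSet (Ioc x₁ x₂ ×ˢ Ioo 0 π) := measurableSet_Ioc.prod measurableSet_Ioo
  have hf : volume (Ioc x₁ x₂ ×ˢ Ioo 0 π) ≠ ⊤ := by
    rw [Measure.volume_eq_prod, Measure.prod_prod, Real.volume_Ioc, Real.volume_Ioo]
    exact ENNReal.mul_ne_top ENNReal.ofReal_ne_top ENNReal.ofReal_ne_top
  have : IsFiniteMeasure (volume.restrict (Ioc x₁ x₂ ×ˢ Ioo 0 π)) := by
    refine ⟨?_⟩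
    rw [Measure.restrict_apply_univ]
    exact hf.lt_top
  exact Integrable.of_bound (hc.aestronglyMeasurable hm) M
    ((ae_restrict_iff' hm).mpr (Filter.Eventually.of_forall hb))

theorem II_eq {F : ℝ → ℝ → ℝ} {x₁ x₂ : ℝ} (h : x₁ ≤ x₂)
    (hF : IntegrableOn (fun p : ℝ × ℝ => F p.1 p.2) (Ioc x₁ x₂ ×ˢ Ioo 0 π)) :
    II x₁ x₂ F = ∫ p in Ioc x₁ x₂ ×ˢ Ioo 0 π, F p.1 p.2 := by
  unfold II
  rw [Measure.volume_eq_prod] at hF ⊢
  rw [intervalIntegral.integral_of_le h, setIntegral_prod _ hF]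
  apply setIntegral_congr_fun measurableSet_Ioc
  intro ξ _
  change ∫ η in (0:ℝ)..π, F ξ η = _
  rw [intervalIntegral.integral_of_le Real.pi_pos.le, integral_Ioc_eq_integral_Ioo]

theorem II_exp {K : ℝ} (x₁ x₂ : ℝ) : II x₁ x₂ (fun ξ _ => K * Real.exp ξ) =
    K * π * (Real.exp x₂ - Real.exp x₁) := by
  unfold II
  have h : ∀ ξ : ℝ, ∫ _ in (0:ℝ)..π, K * Real.exp ξ = K * π * Real.exp ξ := by
    intro ξ
    rw [intervalIntegral.integral_const]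
    simp only [smul_eq_mul, sub_zero]
    ring
  simp only [h]
  rw [intervalIntegral.integral_const_mul, integral_exp]

theorem II_le {F₁ F₂ : ℝ → ℝ → ℝ} {x₁ x₂ K M : ℝ} (h : x₁ ≤ x₂) (hx : x₂ ≤ 0) (hK : 0 ≤ K)
    (c₁ : ContinuousOn (fun p : ℝ × ℝ => F₁ p.1 p.2) (Ioc x₁ x₂ ×ˢ Ioo 0 π))
    (c₂ : ContinuousOn (fun p : ℝ × ℝ => F₂ p.1 p.2) (Ioc x₁ x₂ ×ˢ Ioo 0 π))
    (b₁ : ∀ p ∈ Ioc x₁ x₂ ×ˢ Ioo 0 π, ‖F₁ p.1 p.2‖ ≤ M)
    (b₂ : ∀ p ∈ Ioc x₁ x₂ ×ˢ Ioo 0 π, ‖F₂ p.1 p.2‖ ≤ M)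
    (hle : ∀ p ∈ Ioc x₁ x₂ ×ˢ Ioo 0 π, F₁ p.1 p.2 ≤ F₂ p.1 p.2 + K * Real.exp p.1) :
    II x₁ x₂ F₁ ≤ II x₁ x₂ F₂ + K * π := by
  have i₁ := integrableOn_strip c₁ b₁
  have i₂ := integrableOn_strip c₂ b₂
  have c₃ : ContinuousOn (fun p : ℝ × ℝ => K * Real.exp p.1) (Ioc x₁ x₂ ×ˢ Ioo 0 π) := by
    apply Continuous.continuousOn
    exact continuous_const.mul (Real.continuous_exp.comp continuous_fst)
  have b₃ : ∀ p ∈ Ioc x₁ x₂ ×ˢ Ioo 0 π, ‖K * Real.exp p.1‖ ≤ K := by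
    rintro ⟨ξ, η⟩ ⟨hξ, _⟩
    have h1 : Real.exp ξ ≤ 1 := by
      rw [← Real.exp_zero]
      exact Real.exp_le_exp.mpr (hξ.2.trans hx)
    have h2 := Real.exp_pos ξ
    change ‖K * Real.exp ξ‖ ≤ K
    rw [Real.norm_eq_abs, abs_of_nonneg (by positivity)]
    nlinarith
  have i₃ := integrableOn_strip c₃ b₃
  rw [II_eq h i₁, II_eq h i₂]
  have h3 : II x₁ x₂ (fun ξ _ => K * Real.exp ξ) ≤ K * π := by
    rw [II_exp]
    have h1 : Real.exp x₂ ≤ 1 := by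
      rw [← Real.exp_zero]
      exact Real.exp_le_exp.mpr hx
    have h2 := Real.exp_pos x₁
    have h4 : 0 ≤ K * π := mul_nonneg hK Real.pi_pos.le
    nlinarith
  rw [II_eq (F := fun ξ _ => K * Real.exp ξ) h i₃] at h3
  have hm : MeasurableSet (Ioc x₁ x₂ ×ˢ Ioo 0 π) := measurableSet_Ioc.prod measurableSet_Ioo
  have h4 : ∫ p in Ioc x₁ x₂ ×ˢ Ioo 0 π, F₁ p.1 p.2 ≤
      ∫ p in Ioc x₁ x₂ ×ˢ Ioo 0 π, (F₂ p.1 p.2 + K * Real.exp p.1) :=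
    setIntegral_mono_on i₁ (i₂.add i₃) hm hle
  rw [integral_add i₂ i₃] at h4
  linarith

/-! ### continuity on the strip -/

theorem continuous_pt : Continuous (fun p : ℝ × ℝ => pt p.1 p.2) := by
  unfold pt
  fun_prop

theorem zf_contOn {x₁ x₂ : ℝ} (hx : x₂ < 0) :
    ContinuousOn (fun p : ℝ × ℝ => zf (pt p.1 p.2)) (Ioc x₁ x₂ ×ˢ Ioo 0 π) := by
  have h1 : Continuous (fun p : ℝ × ℝ => Complex.exp (pt p.1 p.2)) :=
    Complex.continuous_exp.comp continuous_pt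
  unfold zf
  apply ContinuousOn.div
  · exact (continuous_const.sub h1).continuousOn
  · exact (continuous_const.add h1).continuousOn
  · rintro ⟨ξ, η⟩ ⟨hξ, _⟩ h
    have h2 : Complex.exp (pt ξ η) = -I := by linear_combination h
    have h3 := norm_E ξ η
    rw [h2, norm_neg, Complex.norm_I] at h3
    have h4 : Real.exp ξ < 1 := by
      rw [← Real.exp_zero]
      exact Real.exp_lt_exp.mpr (lt_of_le_of_lt hξ.2 hx)
    linarith

theorem zf_mapsTo {x₁ x₂ : ℝ} (hx : x₂ < 0) :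
    MapsTo (fun p : ℝ × ℝ => zf (pt p.1 p.2)) (Ioc x₁ x₂ ×ˢ Ioo 0 π)
      {z | 0 < ‖z‖ ∧ ‖z‖ < 1} := by
  rintro ⟨ξ, η⟩ ⟨hξ, hη⟩
  exact zf_norm hη.1 hη.2 (lt_of_le_of_lt hξ.2 hx)

theorem F1_contOn {w : ℂ → ℂ} (hw : ContinuousOn w {z | 0 < ‖z‖ ∧ ‖z‖ < 1}) {x₁ x₂ : ℝ}
    (hx : x₂ < 0) :
    ContinuousOn (fun p : ℝ × ℝ => ‖ee 1 (zf (pt p.1 p.2)) - w (zf (pt p.1 p.2))‖ ^ 2)
      (Ioc x₁ x₂ ×ˢ Ioo 0 π) := by
  have h1 := zf_contOn (x₁ := x₁) hx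
  have h2 : ContinuousOn (fun p : ℝ × ℝ => w (zf (pt p.1 p.2))) (Ioc x₁ x₂ ×ˢ Ioo 0 π) :=
    hw.comp h1 (zf_mapsTo hx)
  have h3 : ContinuousOn (fun p : ℝ × ℝ => ee 1 (zf (pt p.1 p.2))) (Ioc x₁ x₂ ×ˢ Ioo 0 π) := by
    unfold ee
    apply ContinuousOn.div
    · apply continuousOn_const.sub
      apply ContinuousOn.mul _ continuousOn_const
      exact Complex.continuous_conj.comp_continuousOn h1
    · exact continuousOn_const.sub h1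
    · intro p hp h
      have h4 := (zf_mapsTo hx hp).2
      have h5 : zf (pt p.1 p.2) = 1 := (sub_eq_zero.mp h).symm
      change ‖zf (pt p.1 p.2)‖ < 1 at h4
      rw [h5, norm_one] at h4
      exact lt_irrefl _ h4
  exact (h3.sub h2).norm.pow 2

theorem F2_contOn {G : ℂ → ℂ} {L : ℝ} (hG : GLip G L) {X : ℂ → ℂ} {x₁ x₂ : ℝ}
    (hX : NiceX X x₁ x₂) :
    ContinuousOn (fun p : ℝ × ℝ => TG G (X (pt p.1 p.2)) (deriv X (pt p.1 p.2)) (Real.sin p.2)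
      (Real.cos p.2)) (Ioc x₁ x₂ ×ˢ Ioo 0 π) := by
  have hmap : MapsTo (fun p : ℝ × ℝ => pt p.1 p.2) (Ioc x₁ x₂ ×ˢ Ioo 0 π) (Rect x₁ x₂) := by
    rintro ⟨ξ, η⟩ ⟨hξ, hη⟩
    change pt ξ η ∈ Rect x₁ x₂
    unfold Rect
    rw [Complex.mem_reProdIm]
    have e1 : (pt ξ η).re = ξ := by simp [pt]
    have e2 : (pt ξ η).im = η := by simp [pt]
    rw [e1, e2]
    exact ⟨⟨hξ.1.le, hξ.2⟩, ⟨hη.1.le, hη.2.le⟩⟩
  have h1 : ContinuousOn (fun p : ℝ × ℝ => X (pt p.1 p.2)) (Ioc x₁ x₂ ×ˢ Ioo 0 π) :=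
    hX.an.continuousOn.comp continuous_pt.continuousOn hmap
  have h2 : ContinuousOn (fun p : ℝ × ℝ => deriv X (pt p.1 p.2)) (Ioc x₁ x₂ ×ˢ Ioo 0 π) :=
    hX.an.deriv.continuousOn.comp continuous_pt.continuousOn hmap
  have h3 : ContinuousOn (fun p : ℝ × ℝ => deriv X (pt p.1 p.2) / X (pt p.1 p.2))
      (Ioc x₁ x₂ ×ˢ Ioo 0 π) := h2.div h1 (fun p hp => hX.ne _ (hmap hp))
  have h4 : ContinuousOn (fun p : ℝ × ℝ => e0 (Real.sin p.2) (Real.cos p.2))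
      (Ioc x₁ x₂ ×ˢ Ioo 0 π) := by
    apply Continuous.continuousOn
    unfold e0
    fun_prop
  have h5 : ContinuousOn (fun p : ℝ × ℝ => mX (X (pt p.1 p.2)) (deriv X (pt p.1 p.2))
      (Real.sin p.2) (Real.cos p.2)) (Ioc x₁ x₂ ×ˢ Ioo 0 π) := by
    unfold mX
    exact ((continuousOn_const.add h4).mul
      (((continuousOn_const.mul h1).sub continuousOn_const).add h3)).sub continuousOn_const
  unfold TG
  exact (((GLip.continuous hG).comp_continuousOn h5).sub h4).norm.pow 2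

theorem norm_ee {z : ℂ} (hz : ‖z‖ < 1) : ‖ee 1 z‖ = 1 := by
  unfold ee
  have h1 : (1 : ℂ) - conj z * 1 = conj (1 - z) := by
    rw [map_sub, map_one, mul_one]
  rw [h1, norm_div, RCLike.norm_conj]
  have h2 : (1 : ℂ) - z ≠ 0 := by
    intro h
    have h5 : z = 1 := (sub_eq_zero.mp h).symm
    rw [h5, norm_one] at hz
    exact lt_irrefl _ hz
  exact div_self (norm_ne_zero_iff.mpr h2)

/-- E3 with the inputs E1c, E3a1, E3a2, E3b as hypotheses -/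
theorem E3_of
    (E1c : ∀ {β : ℂ → ℂ} {R : ℝ} (_ : ExtR β R) {a : ℝ} (_ : 0 < a) (_ : a < 1) {x₁ x₂ : ℝ}
      (_ : Real.log (tau a) < x₁) (_ : x₂ < 0), NiceX (Xf β a) x₁ x₂)
    (E3a1 : ∀ {ξ η : ℝ} (_ : 0 < η) (_ : η < π) (_ : ξ < 0),
      (zf (pt ξ η) / ‖zf (pt ξ η)‖) * ee 1 (zf (pt ξ η)) =
        ph (Complex.exp (pt ξ η)) * e0 (Real.sin η) (Real.cos η))
    (E3a2 : ∀ {β : ℂ → ℂ} (_ : Ext β) {a : ℝ} (_ : 0 < a) (_ : a < 1) {ξ η : ℝ} (_ : 0 < η)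
      (_ : η < π) (_ : ξ < 0) (_ : Real.log (tau a) < ξ),
      mrad β (zf (pt ξ η)) = ph (Complex.exp (pt ξ η)) *
        (mX (Xf β a (pt ξ η)) (deriv (Xf β a) (pt ξ η)) (Real.sin η) (Real.cos η) +
          2 * I * (Complex.exp (pt ξ η)).im / (Complex.exp (pt ξ η) + I) +
          4 * I * (Complex.exp (pt ξ η)).im / (Complex.exp (pt ξ η) - I)))
    (E3b : ∀ A : ℝ, 1 ≤ A → ∃ C : ℝ, ∀ (w : ℂ → ℂ) (a : ℝ),
      ContinuousOn w {z | 0 < ‖z‖ ∧ ‖z‖ < 1} → (∀ z, ‖w z‖ ≤ 1) → Real.exp (-1) < a → a < 1 →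
      Real.log (tau a) + A ≤ -A →
      Kf w 1 (-1) (Real.log a) ≤ π⁻¹ * II (Real.log (tau a) + A) (-A)
        (fun ξ η => ‖ee 1 (zf (pt ξ η)) - w (zf (pt ξ η))‖ ^ 2) + C)
    {G : ℂ → ℂ} {L : ℝ} (hG : GLip G L) : ∀ A : ℝ, 1 ≤ A → ∃ C : ℝ,
    ∀ (β : ℂ → ℂ) (R a : ℝ), ExtR β R → Real.exp (-1) < a → a < 1 →
    Real.log (tau a) + A ≤ -A →
    Kf (wf G β) 1 (-1) (Real.log a) ≤ π⁻¹ * II (Real.log (tau a) + A) (-A)
      (fun ξ η => TG G (Xf β a (pt ξ η)) (deriv (Xf β a) (pt ξ η)) (Real.sin η) (Real.cos η))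
      + C := by
  intro A hA
  obtain ⟨C, hC⟩ := E3b A hA
  refine ⟨C + 4 * (16 + 28 * L), ?_⟩
  intro β R a hβ ha ha1 hx
  have ha0 : 0 < a := (Real.exp_pos _).trans ha
  have hw := wf_cont hG hβ.toExt
  have h1 := hC (wf G β) a hw (wf_le_one hG β) ha ha1 hx
  have hL := GLip.nonneg hG
  set x₁ := Real.log (tau a) + A with hx₁
  have hx₂ : -A < 0 := by linarith
  have hxx : Real.log (tau a) < x₁ := by linarith
  have hX : NiceX (Xf β a) x₁ (-A) := E1c hβ ha0 ha1 hxx hx₂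
  have h2 : II x₁ (-A) (fun ξ η => ‖ee 1 (zf (pt ξ η)) - wf G β (zf (pt ξ η))‖ ^ 2) ≤
      II x₁ (-A) (fun ξ η => TG G (Xf β a (pt ξ η)) (deriv (Xf β a) (pt ξ η)) (Real.sin η)
        (Real.cos η)) + (4 * (16 + 28 * L)) * π := by
    apply II_le (M := 4) hx hx₂.le (by positivity) (F1_contOn hw hx₂) (F2_contOn hG hX)
    · intro p hp
      have h3 := (zf_mapsTo hx₂ hp).2
      change ‖zf (pt p.1 p.2)‖ < 1 at h3
      have h4 := norm_sub_le (ee 1 (zf (pt p.1 p.2))) (wf G β (zf (pt p.1 p.2)))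
      rw [norm_ee h3] at h4
      have h5 := wf_le_one hG β (zf (pt p.1 p.2))
      rw [norm_pow, norm_norm]
      have h6 := norm_nonneg (ee 1 (zf (pt p.1 p.2)) - wf G β (zf (pt p.1 p.2)))
      nlinarith
    · intro p hp
      unfold TG
      rw [norm_pow, norm_norm]
      have h4 := norm_sub_le (G (mX (Xf β a (pt p.1 p.2)) (deriv (Xf β a) (pt p.1 p.2))
        (Real.sin p.2) (Real.cos p.2))) (e0 (Real.sin p.2) (Real.cos p.2))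
      rw [norm_e0] at h4
      have h5 := hG.le_one (mX (Xf β a (pt p.1 p.2)) (deriv (Xf β a) (pt p.1 p.2))
        (Real.sin p.2) (Real.cos p.2))
      have h6 := norm_nonneg (G (mX (Xf β a (pt p.1 p.2)) (deriv (Xf β a) (pt p.1 p.2))
        (Real.sin p.2) (Real.cos p.2)) - e0 (Real.sin p.2) (Real.cos p.2))
      nlinarith
    · rintro ⟨ξ, η⟩ ⟨hξ, hη⟩
      have hξ' : x₁ < ξ ∧ ξ ≤ -A := hξ
      have hη' : 0 < η ∧ η < π := hη
      have hξ0 : ξ < 0 := by linarith [hξ'.2]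
      have hz := zf_norm hη'.1 hη'.2 hξ0
      change ‖ee 1 (zf (pt ξ η)) - wf G β (zf (pt ξ η))‖ ^ 2 ≤
        TG G (Xf β a (pt ξ η)) (deriv (Xf β a) (pt ξ η)) (Real.sin η) (Real.cos η) +
          (4 * (16 + 28 * L)) * Real.exp ξ
      have hE : ‖Complex.exp (pt ξ η)‖ ≤ 1 / 2 := by
        rw [norm_E]
        have h7 : ξ ≤ -1 := by linarith [hξ'.2]
        have h8 : Real.exp ξ ≤ Real.exp (-1) := Real.exp_le_exp.mpr h7
        have h9 : Real.exp (-1) < 0.3678794412 := Real.exp_neg_one_lt_d9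
        linarith
      have h10 := core hG (m := mX (Xf β a (pt ξ η)) (deriv (Xf β a) (pt ξ η)) (Real.sin η)
        (Real.cos η)) (norm_ph hE) (norm_e0 η) (ph_sub_one hE) (err_le hE)
      rw [norm_E] at h10
      have h11 : ‖ee 1 (zf (pt ξ η)) - wf G β (zf (pt ξ η))‖ =
          ‖ph (Complex.exp (pt ξ η)) * e0 (Real.sin η) (Real.cos η) -
            G (ph (Complex.exp (pt ξ η)) * (mX (Xf β a (pt ξ η)) (deriv (Xf β a) (pt ξ η))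
              (Real.sin η) (Real.cos η) +
              (2 * I * (Complex.exp (pt ξ η)).im / (Complex.exp (pt ξ η) + I) +
              4 * I * (Complex.exp (pt ξ η)).im / (Complex.exp (pt ξ η) - I))))‖ := by
        unfold wf
        rw [wf_term hz.1, E3a1 hη'.1 hη'.2 hξ0,
          E3a2 hβ.toExt ha0 ha1 hη'.1 hη'.2 hξ0 (lt_trans hxx hξ'.1), add_assoc]
      rw [h11]
      exact h10
  have hπ : 0 < π⁻¹ := inv_pos.mpr Real.pi_pos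
  have h3 : π⁻¹ * II x₁ (-A) (fun ξ η => ‖ee 1 (zf (pt ξ η)) - wf G β (zf (pt ξ η))‖ ^ 2) ≤
      π⁻¹ * (II x₁ (-A) (fun ξ η => TG G (Xf β a (pt ξ η)) (deriv (Xf β a) (pt ξ η)) (Real.sin η)
        (Real.cos η)) + (4 * (16 + 28 * L)) * π) := mul_le_mul_of_nonneg_left h2 hπ.le
  have h4 : π⁻¹ * ((4 * (16 + 28 * L)) * π) = 4 * (16 + 28 * L) := by
    field_simp
  rw [mul_add, h4] at h3
  linarith

end Pool.Agent.Helper70.EK
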